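import Pool.Agent.MP_670f9a_nt.H13.Spec

/-! The induction on the relative degree. -/

namespace Pool.Agent.MP_670f9a_nt.H50

open Polynomial Pool.Agent.MP_670f9a_nt.H13

lemma lin_add (s t : Multiset ℂ) : lin (s + t) = lin s * lin t := by
  simp [lin]

lemma lin_cons (w : ℂ) (s : Multiset ℂ) : lin (w ::ₘ s) = (1 - C w * X) * lin s := by
  simp [lin]

lemma lin_neg (s : Multiset ℂ) : (lin s).comp (-X) = lin (s.map fun w => -w) := by
  induction s using Multiset.induction_on with
  | empty => simp [lin]
  | cons w s ih => rw [Multiset.map_cons, lin_cons, lin_cons, mul_comp, ih]; simp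

lemma nodup_of_sep (hL : SLin) (t : Multiset ℂ) (h1 : (lin t).Separable)
    (h2 : (lin t).natDegree = t.card) : t.Nodup := by
  rw [Multiset.nodup_iff_ne_cons_cons]
  rintro w t' rfl
  rw [lin_cons, lin_cons, ← mul_assoc] at h1 h2
  have hu : IsUnit (1 - C w * X : ℂ[X]) := h1.squarefree _ ⟨_, rfl⟩
  have h0 := natDegree_eq_zero_of_isUnit hu
  have h3 := natDegree_mul_le (p := (1 - C w * X : ℂ[X]) * (1 - C w * X)) (q := lin t')
  have h4 := natDegree_mul_le (p := (1 - C w * X : ℂ[X])) (q := 1 - C w * X)
  have h5 := (hL.2.1 t').2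
  simp only [Multiset.card_cons] at h2
  omega

lemma eq_zero_of_root (A g : ℤ[X]) (α : ℂ) (hA : A.Monic) (hi : Irreducible A)
    (h0 : aeval α A = 0) (hg : aeval α g = 0) (hd : g.natDegree < A.natDegree) : g = 0 := by
  have hint : IsIntegral ℤ α := ⟨A, hA, h0⟩
  by_contra hne
  have h1 := natDegree_le_of_dvd (minpoly.isIntegrallyClosed_dvd hint hg) hne
  have h2 : Associated (minpoly ℤ α) A :=
    (minpoly.irreducible hint).associated_of_dvd hi (minpoly.isIntegrallyClosed_dvd hint h0)
  have h3 := natDegree_le_of_dvd h2.symm.dvd (minpoly.ne_zero hint)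
  omega

lemma coeff_comp_neg {R : Type} [CommRing R] (p : R[X]) (j : ℕ) :
    (p.comp (-X)).coeff j = p.coeff j * (-1) ^ j := by
  rw [← comp_C_mul_X_coeff]
  simp

theorem sind : SGr → SLin → SCore → SDouble → SDep → SInd := by
  intro _ hL hC hD hP K _ _ φ ψ α A L r hA hi h0 hψ hL1 hr hroots hLr d
  induction d using Nat.strong_induction_on with
  | _ d ih =>
  intro G ρ hG0 hGd hW hirr hdeg hρ hz hdρ hbig a z ha haz hAa
  have hd : 1 ≤ d := hdeg ▸ hirr.natDegree_pos
  have hev : ev α = ψ.comp φ := RingHom.ext fun g => (hψ g).symm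
  have hmap : G.map (ev α) = (G.map φ).map ψ := by rw [hev, Polynomial.map_map]
  have h4L : 4 * L < A.natDegree := by
    have h1 : (1 : ℝ) ≤ L := by exact_mod_cast hL1
    have h2 : (1 : ℝ) ≤ d := by exact_mod_cast hd
    have h3 : Real.log 2 ≤ Real.log (2 * L * d) :=
      Real.log_le_log (by norm_num) (by nlinarith [mul_le_mul h1 h2 zero_le_one (by linarith)])
    have h4 := Real.log_two_gt_d9
    have h5 : (L : ℝ) * 1 * (1 / 2) ≤ L * d * Real.log (2 * L * d) := by
      gcongr
      linarith
    have : (4 * L : ℝ) < A.natDegree := by linarith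
    exact_mod_cast this
  have hK0 : (G.map φ).coeff 0 = 1 := by rw [coeff_map, hG0, map_one]
  have hKn : ((G.map φ).comp (-X)).natDegree = d := by
    rw [natDegree_comp, hdeg]; simp
  by_cases hco : IsCoprime (G.map φ) ((G.map φ).comp (-X))
  · obtain ⟨s, hs, hlin⟩ := hL.1 (G.map (ev α)) d (by rw [coeff_map, hG0, map_one])
      (natDegree_map_le.trans hGd)
    have hirr' : Irreducible ((G.map φ).comp (-X)) := by
      have := (MulEquiv.irreducible_iff (algEquivAevalNegX (R := K))).2 hirr
      simpa [comp_eq_aeval] using this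
    have hprod : lin (s + s.map fun w => -w) = (G.map φ * (G.map φ).comp (-X)).map ψ := by
      rw [lin_add, ← lin_neg, ← hlin, hmap, Polynomial.map_mul, map_comp]
      simp
    have hnd : (s + s.map fun w => -w).Nodup := by
      refine nodup_of_sep hL _ ?_ ?_
      · rw [hprod]
        exact (hirr.separable.mul hirr'.separable hco).map
      · rw [hprod, natDegree_map, natDegree_mul hirr.ne_zero hirr'.ne_zero, hdeg, hKn]
        simp [hs]
    have hsq := hC A G L d r ρ hA hi hL1 hd hG0 hGd hW hr hρ hroots hz hLr hdρ hbig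
    have hdb := hD A G L d α s hA hi h0 hd h4L hG0 hGd hW hlin hs hnd hsq
    refine hP G a z (fun h => by simp [h] at hG0) ha ?_ fun k => ?_
    · rintro rfl
      rw [← coeff_zero_eq_eval_zero, coeff_map, hG0, map_one] at haz
      exact one_ne_zero haz
    · induction k with
      | zero => left; simpa using haz
      | succ k ihk =>
        rw [pow_succ, pow_mul, pow_mul]
        rcases ihk with h | h
        · exact hdb _ _ h
        · simpa using hdb _ _ h
  · have hdvd : G.map φ ∣ (G.map φ).comp (-X) := by
      by_contra h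
      exact hco (hirr.coprime_iff_not_dvd.2 h)
    obtain ⟨q, hq⟩ := hdvd
    have hq0 : q ≠ 0 := by
      rintro rfl
      rw [mul_zero] at hq
      rw [hq] at hKn
      simp at hKn
      omega
    have hqd : q.natDegree = 0 := by
      have := congrArg natDegree hq
      rw [natDegree_mul hirr.ne_zero hq0, hKn, hdeg] at this
      omega
    have hq1 : q = 1 := by
      have := congrArg (coeff · 0) hq
      simp only [coeff_comp_neg, mul_coeff_zero, hK0] at this
      rw [eq_C_of_natDegree_eq_zero hqd, ← show (1 : K) = q.coeff 0 by simpa using this, C_1]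
    rw [hq1, mul_one] at hq
    have hodd : ∀ j, ¬ 2 ∣ j → G.coeff j = 0 := by
      intro j hj
      rcases lt_or_ge d j with h | h
      · exact coeff_eq_zero_of_natDegree_lt (by omega)
      have h1 := congrArg (coeff · j) hq
      simp only [coeff_comp_neg, coeff_map] at h1
      rw [Odd.neg_one_pow (by rw [← Nat.not_even_iff_odd, even_iff_two_dvd]; exact hj)] at h1
      have h2 : φ (G.coeff j) = 0 := by linear_combination (-1 / 2 : K) * h1
      have h3 : aeval α (G.coeff j) = 0 := by
        have := hψ (G.coeff j)
        rw [h2, map_zero] at this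
        rw [aeval_def]
        exact this.symm
      refine eq_zero_of_root A _ α hA hi h0 h3 ?_
      have h4 := hW j
      have h5 : d * (G.coeff j).natDegree ≤ d * L := by nlinarith
      have := Nat.le_of_mul_le_mul_left h5 hd
      omega
    have hG : G = expand ℤ[X] 2 (contract 2 G) := by
      ext1 j
      rw [coeff_expand (by norm_num)]
      split_ifs with h
      · rw [coeff_contract (by norm_num), Nat.div_mul_cancel h]
      · exact hodd j h
    have hGK : G.map φ = expand K 2 ((contract 2 G).map φ) := by
      rw [← map_expand, ← hG]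
    have hevx : ∀ x w : ℂ, (G.map (ev x)).eval w = ((contract 2 G).map (ev x)).eval (w ^ 2) := by
      intro x w
      conv_lhs => rw [hG, map_expand, expand_eval]
    obtain ⟨d', hd'⟩ : ∃ d', ((contract 2 G).map φ).natDegree = d' := ⟨_, rfl⟩
    have hdd : d = d' * 2 := by rw [← hdeg, hGK, natDegree_expand, hd']
    have hρ0 : 0 < ρ := by linarith
    obtain ⟨u, v, huv, h⟩ := ih d' (by omega) (contract 2 G) (ρ ^ 2)
      (by rw [coeff_contract (by norm_num)]; simpa using hG0)
      (by
        have := congrArg natDegree hG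
        rw [natDegree_expand] at this
        omega)
      (fun j => by
        rw [coeff_contract (by norm_num)]
        have := hW (j * 2)
        rw [hdd] at this
        nlinarith)
      (of_irreducible_expand (p := 2) (by norm_num) (hGK ▸ hirr)) hd' (one_le_pow₀ hρ)
      (fun x y hx hy => by
        obtain ⟨w, rfl⟩ := IsAlgClosed.exists_pow_nat_eq y (show 0 < 2 by norm_num)
        have := hz x w hx (by rw [hevx, hy])
        rw [norm_pow, ← mul_pow]
        exact one_le_pow₀ this)
      (by
        rw [Real.log_pow]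
        rw [hdd] at hdρ
        push_cast at hdρ ⊢
        linarith)
      (by
        refine le_trans ?_ hbig
        have h1 : (1 : ℝ) ≤ L := by exact_mod_cast hL1
        have h2 : (1 : ℝ) ≤ d' := by exact_mod_cast (show 1 ≤ d' by omega)
        have h3 : (d' : ℝ) ≤ d := by exact_mod_cast (show d' ≤ d by omega)
        have h4 : 0 ≤ Real.log (2 * L * d') :=
          Real.log_nonneg (by nlinarith [mul_le_mul h1 h2 zero_le_one (by linarith)])
        gcongr)
      a (z ^ 2) ha (by rw [← hevx, haz]) hAa
    refine ⟨u, 2 * v, by omega, ?_⟩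
    rw [zpow_mul, ← h]
    norm_cast

end Pool.Agent.MP_670f9a_nt.H50
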